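import Pool.Agent.H.MP_b9c7f5_lc.Defs
import Pool.Agent.Lib.lead.CXGraphRed

namespace Pool.Agent.H.MP_b9c7f5_lc

open Pool.Agent.Lib.CX Finset

variable {V : Type} [Fintype V]

open Classical in
theorem mem_set {K : Type} [Fintype K] (H : SimpleGraph V) (c : K → Finset V) (b : ℕ) (hb : 0 < b)
    (h1 : ∀ k, H.IsIndepSet (c k)) (h2 : ∀ v, b ≤ (univ.filter fun k => v ∈ c k).card) :
    ∃ w : Finset V → ℝ, (∀ S, 0 ≤ w S) ∧ (∀ S : Finset V, ¬H.IsIndepSet S → w S = 0) ∧
      (∀ v, 1 ≤ ∑ S with v ∈ S, w S) ∧ ∑ S, w S = Fintype.card K / b := by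
  have b0 : (0 : ℝ) < b := by exact_mod_cast hb
  refine ⟨fun S => (univ.filter fun k => c k = S).card / b, fun S => by positivity, fun S hS => ?_, fun v => ?_, ?_⟩
  · simp only [filter_false_of_mem (s := univ) (p := fun k => c k = S) fun k _ e => hS (e ▸ h1 k)]; simp
  · rw [← sum_div, one_le_div b0]
    have := card_eq_sum_card_fiberwise (s := univ.filter fun k => v ∈ c k) (t := univ.filter fun S => v ∈ S) (f := c)
      (fun k hk => by simpa using hk)
    exact_mod_cast ((h2 v).trans this.le).trans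
      (sum_le_sum fun S _ => card_le_card fun k hk => by simpa using (mem_filter.1 hk).2)
  · rw [← sum_div]
    congr 1
    exact_mod_cast (card_eq_sum_card_fiberwise (s := univ) (t := univ) (f := c) fun _ _ => by simp).symm

theorem chiF_le {K : Type} [Fintype K] (H : SimpleGraph V) (c : K → Finset V) [DecidableEq V] (b : ℕ) (hb : 0 < b)
    (h1 : ∀ k, H.IsIndepSet (c k)) (h2 : ∀ v, b ≤ (univ.filter fun k => v ∈ c k).card) :
    chiF H ≤ Fintype.card K / b :=
  csInf_le ⟨0, by rintro _ ⟨w, h, -, -, rfl⟩; exact sum_nonneg fun S _ => h S⟩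
    (mem_set H c b hb h1 fun v => by convert h2 v)

theorem le_chiF (H : SimpleGraph V) (a : ℕ) (ha : 0 < a) (h : ∀ S : Finset V, H.IsIndepSet S → S.card ≤ a) :
    (Fintype.card V : ℝ) / a ≤ chiF H := by
  classical
  refine le_csInf ⟨_, mem_set H (fun v : V => {v}) 1 one_pos (by simp)
    fun v => card_pos.2 ⟨v, by simp⟩⟩ ?_
  rintro _ ⟨w, h1, h2, h3, rfl⟩
  rw [div_le_iff₀ (by exact_mod_cast ha), sum_mul]
  calc (Fintype.card V : ℝ) = ∑ _v : V, (1 : ℝ) := by simp
    _ ≤ ∑ v, ∑ S with v ∈ S, w S := sum_le_sum fun v _ => by convert h3 v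
    _ = ∑ S : Finset V, ∑ _v ∈ S, w S := by
      simp only [sum_filter]; rw [sum_comm]; simp
    _ ≤ _ := sum_le_sum fun S _ => by
      by_cases e : H.IsIndepSet S
      · simp only [sum_const, nsmul_eq_mul, mul_comm (w S)]
        exact mul_le_mul_of_nonneg_right (by exact_mod_cast h S e) (h1 S)
      · simp [h2 S e]

theorem clq (G : SimpleGraph V) [DecidableEq V] (x : V → ℕ) (T : Finset V) (h : G.IsClique T) :
    ∑ v ∈ T, x v ≤ (rep G x).cliqueNum := by
  have : (rep G x).IsClique (T.sigma fun _ => univ : Finset (Σ v, Fin (x v))) := fun a ha b hb e => by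
    refine ⟨e, .inl ?_⟩
    by_cases n : a.1 = b.1
    · exact .inl n
    · exact .inr (h (by simpa using ha) (by simpa using hb) n)
  simpa using this.card_le_cliqueNum

theorem upper (G : SimpleGraph V) (f : V → Fin 5) (hf : ∀ u v, G.Adj u v → f u = f v + 1 ∨ f v = f u + 1) :
    ImpLe G (5 / 4) := fun x hx => by
  classical
  have c1 : ∀ v, x v ≤ (rep G x).cliqueNum := fun v => by simpa using clq G x {v} (by simp)
  have c2 : ∀ u v, G.Adj u v → x u + x v ≤ (rep G x).cliqueNum := fun u v e => by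
    simpa [sum_pair e.ne] using clq G x {u, v} (by simp [e])
  obtain ⟨v0, h0⟩ := Function.ne_iff.1 hx
  have w0 : 0 < (rep G x).cliqueNum := (Nat.pos_of_ne_zero h0).trans_le (c1 v0)
  rw [div_le_iff₀ (by exact_mod_cast w0)]
  generalize (rep G x).cliqueNum = W at *
  let C : V → Finset (Fin W × Fin 5) := fun v => univ.filter fun p => (p.1 < x v ∧ W - 1 - p.1 < x v) ∨
    ((p.1 < x v ∨ W - 1 - p.1 < x v) ∧ (p.2 = 2 * f v ∨ p.2 = 2 * f v + 1))
  have hC : ∀ v, x v * 4 ≤ (C v).card := fun v => by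
    have s1 : ∑ s ∈ range W, (if s < x v then 2 else 0) = x v * 2 := by
      rw [← sum_filter, show (range W).filter (· < x v) = range (x v) by ext; have := c1 v; simp; omega]; simp
    have s2 := sum_range_reflect (fun s => if s < x v then 2 else 0) W
    have s3 : ∑ s ∈ range W, ((if s < x v then 2 else 0) + if W - 1 - s < x v then 2 else 0) = x v * 4 := by
      rw [sum_add_distrib, s2, s1]; ring
    rw [← s3, card_filter, Fintype.sum_prod_type, ← Fin.sum_univ_eq_sum_range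
      (fun s => (if s < x v then 2 else 0) + if W - 1 - s < x v then 2 else 0)]
    refine sum_le_sum fun s _ => ?_
    generalize f v = a
    by_cases a1 : s.1 < x v <;> by_cases a2 : W - 1 - s.1 < x v <;> simp only [a1, a2] <;> revert a <;> decide
  have hD : ∀ u v, G.Adj u v → ∀ p ∈ C u, p ∉ C v := fun u v e p h1 h2 => by
    have := c2 u v e
    have := p.1.2
    simp only [C, mem_filter, mem_univ, true_and] at h1 h2
    rcases h1 with h1 | h1 <;> rcases h2 with h2 | h2 <;> try omega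
    have := hf u v e
    revert this
    have a1 := h1.2
    have a2 := h2.2
    revert a1 a2
    generalize f u = a, f v = b, p.2 = j
    revert a b j; decide
  have : ∀ v, Nonempty (Fin (x v) × Fin 4 ↪ C v) := fun v =>
    Function.Embedding.nonempty_of_card_le (by simpa using hC v)
  have e := fun v => (this v).some
  refine (chiF_le _ (fun k : Fin W × Fin 5 => univ.filter fun a => ∃ j, (e a.1 (a.2, j)).1 = k) 4 (by norm_num)
    (fun k => ?_) fun a => ?_).trans (by simp; linarith)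
  · rintro ⟨u, i⟩ hu ⟨v, j⟩ hv n ⟨-, h⟩
    simp only [coe_filter, mem_univ, true_and, Set.mem_setOf_eq] at hu hv
    obtain ⟨a, ha⟩ := hu
    obtain ⟨b, hb⟩ := hv
    by_cases q : u = v
    · subst q
      have := (e u).injective (Subtype.ext (ha.trans hb.symm))
      exact n (by rw [(Prod.mk.inj this).1])
    · have : G.Adj u v := by
        rcases h with (h | h) | h | h
        · exact absurd h q
        · exact h
        · exact absurd h.symm q
        · exact h.symm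
      exact hD u v this k (ha ▸ (e u _).2) (hb ▸ (e v _).2)
  · refine le_trans (by simp) (card_le_card_of_injOn (s := (univ : Finset (Fin 4))) (fun j => (e a.1 (a.2, j)).1)
      (fun j _ => by simpa using ⟨j, rfl⟩) fun i _ j _ h => ?_)
    exact (Prod.mk.inj ((e a.1).injective (Subtype.ext h))).2

theorem lower (G : SimpleGraph V) [Nonempty V] (m : ℕ) (hm : Fintype.card V = 5 * m) (h3 : G.CliqueFree 3)
    (h : ImpLe G (5 / 4)) : ∃ S : Finset V, G.IsIndepSet S ∧ 2 * m ≤ S.card := by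
  classical
  by_contra! n
  have m0 : 0 < m := by have := Fintype.card_pos (α := V); omega
  have inj : Function.Injective (Sigma.fst : (Σ _ : V, Fin 1) → V) := by
    rintro ⟨u, i⟩ ⟨v, j⟩ rfl; rw [Subsingleton.elim i j]
  have adj : ∀ a b, (rep G fun _ => 1).Adj a b ↔ G.Adj a.1 b.1 := fun a b =>
    ⟨fun ⟨n, h⟩ => by
      have q := inj.ne n
      rcases h with (h | h) | h | h
      · exact absurd h q
      · exact h
      · exact absurd h.symm q
      · exact h.symm, fun h => ⟨by rintro rfl; exact h.ne rfl, .inl (.inr h)⟩⟩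
  have h1 := le_chiF (rep G fun _ => 1) (2 * m - 1) (by omega) fun S hS => by
    have := n (S.image Sigma.fst) (by
      rw [coe_image]
      rintro _ ⟨a, ha, rfl⟩ _ ⟨b, hb, rfl⟩ q e
      exact hS ha hb (by rintro rfl; exact q rfl) ((adj a b).2 e))
    rw [card_image_of_injective _ inj] at this
    omega
  have h2 := h (fun _ => 1) fun e => by simpa using congrFun e (Classical.arbitrary V)
  have c1 : 1 ≤ (rep G fun _ => 1).cliqueNum := by simpa using clq G (fun _ => 1) {Classical.arbitrary V} (by simp)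
  have c2 : (rep G fun _ => 1).cliqueNum ≤ 2 := by
    obtain ⟨s, hs⟩ := (rep G fun _ => 1).exists_isNClique_cliqueNum
    rw [← hs.card_eq]
    by_contra! q
    obtain ⟨a, b, c, ha, hb, hc, ab, ac, bc⟩ := two_lt_card_iff.1 q
    exact h3 _ (SimpleGraph.is3Clique_triple_iff.2 ⟨(adj _ _).1 (hs.isClique ha hb ab), (adj _ _).1 (hs.isClique ha hc ac),
      (adj _ _).1 (hs.isClique hb hc bc)⟩)
  rw [div_le_iff₀ (by exact_mod_cast c1)] at h2
  have c3 : ((rep G fun _ => 1).cliqueNum : ℝ) ≤ 2 := by exact_mod_cast c2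
  have m1 : (1 : ℝ) ≤ m := by exact_mod_cast m0
  rw [Fintype.card_sigma, Nat.cast_pred (by omega), div_le_iff₀ (by push_cast; linarith)] at h1
  simp only [Fintype.card_fin, sum_const, card_univ, hm, smul_eq_mul, mul_one] at h1
  push_cast at h1
  nlinarith

abbrev W := (ℕ × ℕ) × ℕ

def a1 (a : Gr) (u v : ℕ) : Prop := u ≠ v ∧ (a.n ≤ u ∨ a.n ≤ v ∨ a.adjB u v = true)
def a2 (p q : ℕ × ℕ) : Prop :=
  (p.1 = q.1 ∧ ((p.1 = p.2 ∧ q.1 ≠ q.2) ∨ (p.1 ≠ p.2 ∧ q.1 = q.2))) ∨ (p.1 = q.2 ∧ p.2 = q.1 ∧ p.1 ≠ p.2)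
def a3 (p q : W) : Prop := (p.1 = q.1 ∧ (q.2 = (p.2 + 1) % 5 ∨ p.2 = (q.2 + 1) % 5)) ∨ (a2 p.1 q.1 ∧ p.2 = q.2)
instance (a u v) : Decidable (a1 a u v) := by unfold a1; infer_instance
instance (u v) : Decidable (a3 u v) := by unfold a3 a2; infer_instance
def v2 (a : Gr) : List (ℕ × ℕ) :=
  (List.range (a.n + 2) ×ˢ List.range (a.n + 2)).filter fun p => p.1 = p.2 ∨ a1 a p.1 p.2
def vs (a : Gr) : List W := v2 a ×ˢ List.range 5
def gr (a : Gr) : Gr := mkGr (vs a) ((vs a ×ˢ vs a).filter fun e => a3 e.1 e.2)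

theorem mem_v2 {a : Gr} {p : ℕ × ℕ} : p ∈ v2 a ↔ p.1 < a.n + 2 ∧ p.2 < a.n + 2 ∧ (p.1 = p.2 ∨ a1 a p.1 p.2) := by
  obtain ⟨u, v⟩ := p
  simp [v2, and_assoc]

theorem mem_vs {a : Gr} {p : W} : p ∈ vs a ↔ p.1 ∈ v2 a ∧ p.2 < 5 := by
  obtain ⟨u, v⟩ := p
  simp [vs]

theorem a1_symm {a u v} (h : a1 a u v) : a1 a v u :=
  ⟨h.1.symm, by have := h.2; simp only [Gr.adjB, decide_eq_true_eq] at this ⊢; tauto⟩

theorem gr_adj (a u v) : (gr a).G.Adj u v ↔ a3 (mkGrEquiv _ _ u).1 (mkGrEquiv _ _ v).1 := by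
  have : ∀ u v, (gr a).arc u v ↔ a3 (mkGrEquiv _ _ u).1 (mkGrEquiv _ _ v).1 := fun u v => by
    refine (mkGr_arc _ _ u v).trans ?_
    simp only [List.mem_filter, decide_eq_true_eq, and_iff_right_iff_imp]
    exact fun _ => List.pair_mem_product.2 ⟨(mkGrEquiv _ _ u).2, (mkGrEquiv _ _ v).2⟩
  refine (and_congr Iff.rfl (or_congr (this u v) (this v u))).trans ⟨fun h => h.2.elim id fun h => ?_,
    fun h => ⟨?_, .inl h⟩⟩
  · simp only [a3, a2, Prod.ext_iff] at h ⊢; omega
  · rintro rfl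
    simp only [a3, a2] at h; omega

theorem main (a : Gr) (G : SimpleGraph V) (g : V → W) (hg : Function.Injective g) (hT : ∀ p, p ∈ vs a ↔ ∃ u, g u = p)
    (hA : ∀ u v, G.Adj u v ↔ a3 (g u) (g v)) : a.G.Colorable 3 ↔ ImpLe G (5 / 4) := by
  classical
  have hT' : ∀ u, (g u).1 ∈ v2 a ∧ (g u).2 < 5 := fun u => mem_vs.1 ((hT _).2 ⟨u, rfl⟩)
  constructor
  · rintro ⟨c⟩
    let d : ℕ → Fin 5 := fun u => if h : u < a.n then Fin.castLE (by omega) (c ⟨u, h⟩) else if u = a.n then 3 else 4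
    have hd : ∀ u < a.n + 2, ∀ v < a.n + 2, a1 a u v → d u ≠ d v := fun u hu v hv ⟨h1, h2⟩ => by
      simp only [d, ne_eq, Fin.ext_iff]
      by_cases p : u < a.n <;> by_cases q : v < a.n <;> simp only [p, q, dif_pos, dif_neg, not_false_iff]
      · have := c.valid ((a.adjB_iff ⟨u, p⟩ ⟨v, q⟩).1 (by simpa [p, q, p.not_ge, q.not_ge] using h2))
        simpa [Fin.ext_iff] using this
      · have := (c ⟨u, p⟩).2
        split <;> simp <;> omega
      · have := (c ⟨v, q⟩).2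
        split <;> simp <;> omega
      · split <;> split <;> simp <;> omega
    let s : Fin 5 → Fin 5 → Fin 5 := fun x y => if x = y then x else if y - x = 1 ∨ y - x = 3 then x + 1 else x - 1
    refine upper G (fun u => s (d (g u).1.1) (d (g u).1.2) + Fin.ofNat 5 (g u).2) fun u v e => ?_
    have t1 := hT' u
    have t2 := hT' v
    rw [hA] at e
    generalize g u = p at *
    generalize g v = q at *
    obtain ⟨⟨x, y⟩, i⟩ := p
    obtain ⟨⟨z, w⟩, j⟩ := q
    simp only [mem_v2, a3, a2, Prod.mk.injEq] at t1 t2 e ⊢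
    rcases e with ⟨⟨rfl, rfl⟩, e⟩ | ⟨⟨rfl, ⟨rfl, e⟩ | ⟨e, rfl⟩⟩ | ⟨rfl, rfl, e⟩, rfl⟩
    · generalize s (d x) (d y) = k
      obtain ⟨i, rfl⟩ : ∃ k : Fin 5, i = k := ⟨⟨i, t1.2⟩, rfl⟩
      obtain ⟨j, rfl⟩ : ∃ k : Fin 5, j = k := ⟨⟨j, t2.2⟩, rfl⟩
      revert e; clear t1 t2; revert i j k; decide
    · have := hd _ t2.1.1 _ t2.1.2.1 (t2.1.2.2.resolve_left e)
      revert this
      generalize d x = k, d w = l, Fin.ofNat 5 i = m
      revert k l m; decide
    · have := hd _ t1.1.1 _ t1.1.2.1 (t1.1.2.2.resolve_left e)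
      revert this
      generalize d x = k, d y = l, Fin.ofNat 5 i = m
      revert k l m; decide
    · have := hd _ t1.1.1 _ t1.1.2.1 (t1.1.2.2.resolve_left e)
      revert this
      generalize d x = k, d y = l, Fin.ofNat 5 i = m
      revert k l m; decide
  · intro h
    obtain ⟨u0, -⟩ := (hT ((0, 0), 0)).1 (mem_vs.2 ⟨mem_v2.2 (by simp), by simp⟩)
    have : Nonempty V := ⟨u0⟩
    choose! s hs using fun p => (hT p).1
    obtain ⟨S, h1, h2⟩ := lower G (v2 a).toFinset.card (by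
      rw [mul_comm, ← card_range 5, ← card_product, ← card_univ]
      refine card_bij (fun u _ => g u) (fun u _ => by simpa using hT' u) (fun _ _ _ _ e => hg e) fun p hp =>
        ⟨s p, mem_univ _, hs p (mem_vs.2 (by simpa using hp))⟩) (fun t ht => by
      obtain ⟨x, y, z, e1, e2, e3, -⟩ := SimpleGraph.is3Clique_iff.1 ht
      rw [hA] at e1 e2 e3
      have := (hT' x).2
      have := (hT' y).2
      have := (hT' z).2
      simp only [a3, a2, Prod.ext_iff] at e1 e2 e3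
      omega) h
    let A : ℕ × ℕ → Finset (Fin 5) := fun p => univ.filter fun i => s (p, i) ∈ S
    have hs' : ∀ p ∈ v2 a, ∀ i : Fin 5, g (s (p, i)) = (p, i.1) := fun p hp i => hs _ (mem_vs.2 ⟨hp, i.2⟩)
    have na : ∀ p ∈ v2 a, ∀ q ∈ v2 a, ∀ i ∈ A p, ∀ j ∈ A q, ¬a3 (p, i) (q, j) := fun p hp q hq i hi j hj e => by
      rw [← hs' p hp, ← hs' q hq, ← hA] at e
      exact h1 (mem_filter.1 hi).2 (mem_filter.1 hj).2 e.ne e
    have i1 : ∀ p ∈ v2 a, ∀ i ∈ A p, ∀ j ∈ A p, j.1 ≠ (i.1 + 1) % 5 := fun p hp i hi j hj e =>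
      na p hp p hp i hi j hj (.inl ⟨rfl, .inl e⟩)
    have d1 : ∀ B : Finset (Fin 5), (∀ i ∈ B, ∀ j ∈ B, j.1 ≠ (i.1 + 1) % 5) →
        B.card ≤ 2 ∧ (B.card = 2 → ∃ k, B = {k, k + 2}) := by decide +kernel
    have c1 : S.card ≤ ∑ p ∈ (v2 a).toFinset, (A p).card := by
      rw [card_eq_sum_card_fiberwise (f := fun u => (g u).1) (t := (v2 a).toFinset) fun u _ => by simpa using (hT' u).1]
      refine sum_le_sum fun p hp => card_le_card_of_injOn (fun u => ⟨(g u).2, (hT' u).2⟩) (fun u hu => ?_)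
        fun u hu v hv e => hg (Prod.ext ?_ (by simpa using e))
      · simp only [coe_filter, Set.mem_setOf_eq] at hu
        have : s (p, (g u).2) = u := hg (by rw [← hu.2]; exact hs _ ((hT _).2 ⟨u, rfl⟩))
        simp [A, this, hu.1]
      · exact (mem_filter.1 hu).2.trans (mem_filter.1 hv).2.symm
    have c2 : ∀ p ∈ (v2 a).toFinset, (A p).card = 2 := (sum_eq_sum_iff_of_le fun p hp =>
      (d1 _ (i1 p (List.mem_toFinset.1 hp))).1).1 (le_antisymm (sum_le_sum fun p hp =>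
      (d1 _ (i1 p (List.mem_toFinset.1 hp))).1) (by simp only [sum_const, smul_eq_mul]; omega))
    choose! k hk using fun p hp => (d1 _ (i1 p hp)).2 (c2 p (List.mem_toFinset.2 hp))
    have st : ∀ p ∈ v2 a, ∀ q ∈ v2 a, a2 p q → k p = k q + 1 ∨ k q = k p + 1 := fun p hp q hq e => by
      have : ∀ i ∈ A p, i ∉ A q := fun i hi hj => na p hp q hq i hi i hj (.inr ⟨e, rfl⟩)
      rw [hk p hp, hk q hq] at this
      revert this
      generalize k p = x, k q = y
      revert x y; decide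
    have ne : ∀ u < a.n + 2, ∀ v < a.n + 2, a1 a u v → k (u, u) ≠ k (v, v) := fun u hu v hv e => by
      have m1 : (u, u) ∈ v2 a := mem_v2.2 ⟨hu, hu, .inl rfl⟩
      have m2 : (u, v) ∈ v2 a := mem_v2.2 ⟨hu, hv, .inr e⟩
      have m3 : (v, u) ∈ v2 a := mem_v2.2 ⟨hv, hu, .inr (a1_symm e)⟩
      have m4 : (v, v) ∈ v2 a := mem_v2.2 ⟨hv, hv, .inl rfl⟩
      have b1 := st _ m1 _ m2 (.inl ⟨rfl, .inl ⟨rfl, e.1⟩⟩)
      have b2 := st _ m2 _ m3 (.inr ⟨rfl, rfl, e.1⟩)
      have b3 := st _ m3 _ m4 (.inl ⟨rfl, .inr ⟨e.1.symm, rfl⟩⟩)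
      revert b1 b2 b3
      generalize k (u, u) = x, k (u, v) = y, k (v, u) = z, k (v, v) = w
      revert x y z w; decide
    have d2 : ∀ x y : Fin 5, x ≠ y → Fintype.card {z : Fin 5 // z ≠ x ∧ z ≠ y} = 3 := by decide
    rw [← d2 _ _ (ne a.n (by omega) (a.n + 1) (by omega) ⟨by omega, .inl le_rfl⟩)]
    exact SimpleGraph.Coloring.colorable (SimpleGraph.Coloring.mk (fun u => ⟨k (u, u),
      ne u (by omega) _ (by omega) ⟨u.2.ne, .inr (.inl le_rfl)⟩,
      ne u (by omega) _ (by omega) ⟨by omega, .inr (.inl (by omega))⟩⟩) fun {u v} e q =>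
      ne u (by omega) v (by omega) ⟨Fin.val_ne_of_ne e.ne, .inr (.inr ((a.adjB_iff u v).2 e))⟩ (congrArg Subtype.val q))

set_option synthInstance.maxSize 2000 in
theorem hard : NPHard fun a : Gr => ImpLe a.G (5 / 4) :=
  col3_hard.red ⟨gr, by unfold gr vs v2 a3 a2 a1; fun_prop, fun a => main a _ _
    (fun _ _ e => (mkGrEquiv _ _).injective (Subtype.ext e))
    (fun p => ⟨fun h => ⟨(mkGrEquiv _ _).symm ⟨p, h⟩, by simp⟩, by rintro ⟨u, rfl⟩; exact (mkGrEquiv _ _ u).2⟩)
    (gr_adj a)⟩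

end Pool.Agent.H.MP_b9c7f5_lc
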