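import Pool.Agent.Lib.lead.CXGraph

namespace Pool.Agent.H.MP_b9c7f5_lc

variable {V : Type}

/-- the replicated graph: each node `v` is replaced by a clique of `x v` nodes -/
def rep (G : SimpleGraph V) (x : V → ℕ) : SimpleGraph (Σ v, Fin (x v)) :=
  SimpleGraph.fromRel fun a b => a.1 = b.1 ∨ G.Adj a.1 b.1

open Classical in
/-- the fractional chromatic number: least total weight of stable sets covering every node with weight 1 -/
noncomputable def chiF [Fintype V] (H : SimpleGraph V) : ℝ :=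
  sInf {r | ∃ w : Finset V → ℝ, (∀ S, 0 ≤ w S) ∧ (∀ S : Finset V, ¬H.IsIndepSet S → w S = 0) ∧
    (∀ v, 1 ≤ ∑ S with v ∈ S, w S) ∧ ∑ S, w S = r}

/-- the imperfection ratio of `G` is at most `t` -/
def ImpLe [Fintype V] (G : SimpleGraph V) (t : ℝ) : Prop :=
  ∀ x : V → ℕ, x ≠ 0 → chiF (rep G x) / (rep G x).cliqueNum ≤ t

end Pool.Agent.H.MP_b9c7f5_lc
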